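import Pool.Agent.H23.CM4.Targets

/-!
# Row D_MUL of the board `cm4_modules`: the coefficients are multiplicative
-/

set_option autoImplicit false

open NumberField MeasureTheory Set Filter Complex
open scoped nonZeroDivisors Real

namespace Pool.Agent.H66.CM4

open Pool.Agent.H23.CM4
open Pool.Agent.H61.FM (CC pv Sp lm Nn)
open Pool.Agent.H65.CM4 (Sq nm)

section

variable {k : Type} [Field k] [NumberField k] {K : Type} [Field K] [NumberField K] [Algebra k K]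

theorem MUL_pv_mul (ψ : CC K) (I J : (Ideal (𝓞 K))⁰) : pv ψ (I * J) = pv ψ I * pv ψ J := by
  unfold pv
  rw [map_mul, map_mul, Units.val_mul]

theorem MUL_pv_one (ψ : CC K) : pv ψ (1 : (Ideal (𝓞 K))⁰) = 1 := by
  unfold pv
  rw [map_one, map_one, Units.val_one]

/-- the extension of an ideal -/
noncomputable abbrev MM (K : Type) [Field K] [NumberField K] [Algebra k K] (I : Ideal (𝓞 k)) :
    Ideal (𝓞 K) :=
  Ideal.map (algebraMap (𝓞 k) (𝓞 K)) I

theorem MUL_le (J : Ideal (𝓞 K)) : MM K (Ideal.relNorm (𝓞 k) J) ≤ J :=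
  Ideal.map_le_iff_le_comap.2 (Ideal.relNorm_le_comap (𝓞 k) J)

theorem MUL_cop {I I' : Ideal (𝓞 k)} (h : I ⊔ I' = ⊤) : MM K I ⊔ MM K I' = ⊤ := by
  rw [← Ideal.map_sup, h, Ideal.map_top]

theorem MUL_recov {I I' : Ideal (𝓞 k)} (h : I ⊔ I' = ⊤) {A B : Ideal (𝓞 K)}
    (hA : Ideal.relNorm (𝓞 k) A = I) (hB : Ideal.relNorm (𝓞 k) B = I') : A = A * B ⊔ MM K I := by
  have hmI : MM K I ≤ A := by
    rw [← hA]
    exact MUL_le A
  have hnJ : MM K I' ≤ B := by
    rw [← hB]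
    exact MUL_le B
  have htop : B ⊔ MM K I = ⊤ := by
    rw [eq_top_iff, ← MUL_cop (K := K) h, sup_comm]
    exact sup_le_sup_right hnJ _
  refine le_antisymm ?_ ?_
  · calc A = A * ⊤ := (Ideal.mul_top A).symm
      _ = A * (B ⊔ MM K I) := by rw [htop]
      _ = A * B ⊔ A * MM K I := Ideal.mul_sup _ _ _
      _ ≤ A * B ⊔ MM K I := sup_le_sup_left Ideal.mul_le_right _
  · exact sup_le Ideal.mul_le_left hmI

theorem MUL_dvd_antisymm {A B : Ideal (𝓞 k)} (h : A ∣ B) (h' : B ∣ A) : A = B :=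
  le_antisymm (Ideal.dvd_iff_le.1 h') (Ideal.dvd_iff_le.1 h)

theorem MUL_split {I I' : Ideal (𝓞 k)} (h : I ⊔ I' = ⊤) (hI : I ≠ ⊥) {E : Ideal (𝓞 K)}
    (hE : Ideal.relNorm (𝓞 k) E = I * I') :
    (E ⊔ MM K I) * (E ⊔ MM K I') = E ∧
      Ideal.relNorm (𝓞 k) (E ⊔ MM K I) = I ∧
      Ideal.relNorm (𝓞 k) (E ⊔ MM K I') = I' := by
  have h1 : (E ⊔ MM K I) * (E ⊔ MM K I') = E := by
    refine le_antisymm ?_ ?_
    · rw [Ideal.sup_mul]
      refine sup_le Ideal.mul_le_left ?_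
      rw [Ideal.mul_sup]
      refine sup_le Ideal.mul_le_right ?_
      rw [← Ideal.map_mul, ← hE]
      exact MUL_le E
    · calc E = E * (MM K I ⊔ MM K I') := by
            rw [MUL_cop h, Ideal.mul_top]
        _ = MM K I * E ⊔ E * MM K I' := by
            rw [Ideal.mul_sup, mul_comm E (MM K I)]
        _ ≤ _ := sup_le (Ideal.mul_mono le_sup_right le_sup_left)
            (Ideal.mul_mono le_sup_left le_sup_right)
  have h2 : Ideal.relNorm (𝓞 k) (E ⊔ MM K I) * Ideal.relNorm (𝓞 k) (E ⊔ MM K I') = I * I' := by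
    rw [← map_mul, h1, hE]
  have hpow : ∀ J : Ideal (𝓞 k), ∃ d : ℕ, Ideal.relNorm (𝓞 k) (E ⊔ MM K J) ∣ J ^ d := by
    intro J
    have h3 : Ideal.relNorm (𝓞 k) (MM K J) = J ^ (Module.finrank (𝓞 k) (𝓞 K)) :=
      Ideal.relNorm_algebraMap (𝓞 K) J
    refine ⟨Module.finrank (𝓞 k) (𝓞 K), ?_⟩
    rw [← h3]
    exact map_dvd (Ideal.relNorm (𝓞 k)) (Ideal.dvd_iff_le.2 le_sup_right)
  obtain ⟨d, hd⟩ := hpow I
  obtain ⟨e, he⟩ := hpow I'
  have hc : IsCoprime I I' := Ideal.isCoprime_iff_sup_eq.2 h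
  have h5 : IsCoprime (Ideal.relNorm (𝓞 k) (E ⊔ MM K I)) I' := by
    have h6 : IsCoprime (I ^ d) I' := hc.pow_left
    obtain ⟨c, hc⟩ := hd
    rw [hc] at h6
    exact h6.of_mul_left_left
  have h6 : IsCoprime I (Ideal.relNorm (𝓞 k) (E ⊔ MM K I')) := by
    have h6 : IsCoprime I (I' ^ e) := hc.pow_right
    obtain ⟨c, hc⟩ := he
    rw [hc] at h6
    exact h6.of_mul_right_left
  have h7 : Ideal.relNorm (𝓞 k) (E ⊔ MM K I) = I := by
    refine MUL_dvd_antisymm ?_ ?_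
    · exact h5.dvd_of_dvd_mul_right (h2 ▸ Dvd.intro _ rfl)
    · exact h6.dvd_of_dvd_mul_right (h2 ▸ Dvd.intro _ rfl)
  refine ⟨h1, h7, ?_⟩
  rw [h7] at h2
  exact mul_left_cancel₀ (by exact hI) h2

end

theorem pf_MUL (hJDM : T_JDM) : T_MUL := by
  intro k _ _ K _ _ _ ψ
  obtain ⟨-, -, -, -, j5⟩ := hJDM k
  have mem : ∀ (I : Ideal (𝓞 k)) (J : (Ideal (𝓞 K))⁰),
      J ∈ Nr k K I ↔ Ideal.relNorm (𝓞 k) (J : Ideal (𝓞 K)) = I := fun I J => j5 K I J
  constructor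
  · have h : Nr k K (⊤ : Ideal (𝓞 k)) = {1} := by
      ext J
      rw [mem, Finset.mem_singleton]
      constructor
      · intro h
        apply Subtype.ext
        have h1 := MUL_le (k := k) (J : Ideal (𝓞 K))
        rw [h, MM, Ideal.map_top, top_le_iff] at h1
        rw [h1]
        exact Ideal.one_eq_top.symm
      · intro h
        rw [h]
        have h1 : ((1 : (Ideal (𝓞 K))⁰) : Ideal (𝓞 K)) = ⊤ := Ideal.one_eq_top
        rw [h1, Ideal.relNorm_top]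
    unfold lr
    rw [h, Finset.sum_singleton, MUL_pv_one]
  · intro I I' hI hI' h
    unfold lr
    rw [Finset.sum_mul_sum, ← Finset.sum_product']
    symm
    refine Finset.sum_nbij (fun p => p.1 * p.2) ?_ ?_ ?_ ?_
    · rintro ⟨A, B⟩ hp
      obtain ⟨hA, hB⟩ := Finset.mem_product.1 hp
      rw [mem] at hA hB ⊢
      show Ideal.relNorm (𝓞 k) ((A : Ideal (𝓞 K)) * (B : Ideal (𝓞 K))) = I * I'
      rw [map_mul]
      exact congrArg₂ _ hA hB
    · rintro ⟨A, B⟩ hp ⟨A', B'⟩ hp' he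
      obtain ⟨hA, hB⟩ := Finset.mem_product.1 (Finset.mem_coe.1 hp)
      obtain ⟨hA', hB'⟩ := Finset.mem_product.1 (Finset.mem_coe.1 hp')
      rw [mem] at hA hB hA' hB'
      have he' : (A : Ideal (𝓞 K)) * (B : Ideal (𝓞 K)) =
          (A' : Ideal (𝓞 K)) * (B' : Ideal (𝓞 K)) := congrArg Subtype.val he
      have h' : I' ⊔ I = ⊤ := by rw [sup_comm]; exact h
      have e1 : (A : Ideal (𝓞 K)) = A' := by
        rw [MUL_recov h hA hB, he', ← MUL_recov h hA' hB']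
      have e2 : (B : Ideal (𝓞 K)) = B' := by
        rw [MUL_recov h' hB hA, mul_comm (B : Ideal (𝓞 K)), he', mul_comm (A' : Ideal (𝓞 K)),
          ← MUL_recov h' hB' hA']
      exact Prod.ext (Subtype.ext e1) (Subtype.ext e2)
    · intro E hE
      rw [Finset.mem_coe, mem] at hE
      obtain ⟨h1, h2, h3⟩ := MUL_split h hI hE
      have n1 : (E : Ideal (𝓞 K)) ⊔ MM K I ∈ (Ideal (𝓞 K))⁰ := by
        rw [mem_nonZeroDivisors_iff_ne_zero]
        intro h0
        rw [h0] at h2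
        exact hI (by rw [← h2]; exact Ideal.relNorm_bot _)
      have n2 : (E : Ideal (𝓞 K)) ⊔ MM K I' ∈ (Ideal (𝓞 K))⁰ := by
        rw [mem_nonZeroDivisors_iff_ne_zero]
        intro h0
        rw [h0] at h3
        exact hI' (by rw [← h3]; exact Ideal.relNorm_bot _)
      refine ⟨(⟨_, n1⟩, ⟨_, n2⟩), ?_, Subtype.ext h1⟩
      exact Finset.mem_coe.2 (Finset.mem_product.2 ⟨(mem _ _).2 h2, (mem _ _).2 h3⟩)
    · rintro ⟨A, B⟩ _
      exact (MUL_pv_mul ψ A B).symm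

end Pool.Agent.H66.CM4
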