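import Pool.Agent.H23.CM4.Targets

/-!
# Row D_SQD of the board `cm4_modules`: the decomposition of ideals
-/

set_option autoImplicit false

open NumberField MeasureTheory Set Filter Complex
open scoped nonZeroDivisors Real

namespace Pool.Agent.H66.CM4

open Pool.Agent.H23.CM4
open Pool.Agent.H65.CM4 (Sq nm)

section

variable {k : Type} [Field k] [NumberField k]

theorem SQD_full_one (b : ℕ) : Full b (1 : Ideal (𝓞 k)) := by
  intro P hP h
  exfalso
  exact hP.ne_top (Ideal.isUnit_iff.1 (isUnit_of_dvd_one h))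

theorem SQD_dvd_mul {P A B : Ideal (𝓞 k)} (hP : P.IsPrime) (h : P ∣ A * B) : P ∣ A ∨ P ∣ B := by
  rw [Ideal.dvd_iff_le] at h
  rcases hP.mul_le.1 h with h | h
  · exact Or.inl (Ideal.dvd_iff_le.2 h)
  · exact Or.inr (Ideal.dvd_iff_le.2 h)

theorem SQD_full_mul {b : ℕ} {A B : Ideal (𝓞 k)} (hA : Full b A) (hB : Full b B) :
    Full b (A * B) := by
  intro P hP h
  rcases SQD_dvd_mul hP h with h | h
  · rcases hA P hP h with h1 | h1
    · exact Or.inl (h1.mul_right B)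
    · exact Or.inr h1
  · rcases hB P hP h with h1 | h1
    · exact Or.inl (h1.mul_left A)
    · exact Or.inr h1

/-- `I` and `B` are the parts of `H` -/
def SQDdec (b : ℕ) (B I H : Ideal (𝓞 k)) : Prop :=
  Full b B ∧ Squarefree I ∧ I ⊔ Ideal.span {(b : 𝓞 k)} = ⊤ ∧ I ⊔ B = ⊤ ∧ B * I = H

theorem SQD_cop {A B A' B' : Ideal (𝓞 k)} (h : A ⊔ B = ⊤) (hA : A' ∣ A) (hB : B' ∣ B) :
    A' ⊔ B' = ⊤ := by
  rw [eq_top_iff, ← h]
  exact sup_le_sup (Ideal.dvd_iff_le.1 hA) (Ideal.dvd_iff_le.1 hB)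

theorem SQD_cop_mul {A B C : Ideal (𝓞 k)} (h : A ⊔ C = ⊤) (h' : B ⊔ C = ⊤) :
    (A * B) ⊔ C = ⊤ := by
  rw [← Ideal.isCoprime_iff_sup_eq] at *
  exact h.mul_left h'

theorem SQD_relPrime {A B : Ideal (𝓞 k)} (h : IsRelPrime A B) : A ⊔ B = ⊤ := by
  have h1 : A ⊔ B ∣ A := Ideal.dvd_iff_le.2 le_sup_left
  have h2 : A ⊔ B ∣ B := Ideal.dvd_iff_le.2 le_sup_right
  exact Ideal.isUnit_iff.1 (h h1 h2)

theorem SQD_exists (b : ℕ) (H : Ideal (𝓞 k)) (hH : H ≠ ⊥) : ∃ B I, SQDdec b B I H := by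
  revert hH
  refine UniqueFactorizationMonoid.induction_on_coprime
    (P := fun H : Ideal (𝓞 k) => H ≠ ⊥ → ∃ B I, SQDdec b B I H) H ?_ ?_ ?_ ?_
  · intro h
    exact absurd rfl h
  · intro x hx _
    have h1 : x = 1 := by rw [Ideal.one_eq_top]; exact Ideal.isUnit_iff.1 hx
    refine ⟨1, 1, SQD_full_one b, squarefree_one, ?_, ?_, ?_⟩
    · rw [Ideal.one_eq_top, top_sup_eq]
    · rw [Ideal.one_eq_top, top_sup_eq]
    · rw [h1, one_mul]
  · intro p i hp _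
    have hpP : p.IsPrime := Ideal.isPrime_of_prime hp
    have hp0 : p ≠ ⊥ := hp.ne_zero
    have hpM : p.IsMaximal := hpP.isMaximal hp0
    by_cases hi0 : i = 0
    · refine ⟨1, 1, SQD_full_one b, squarefree_one, ?_, ?_, ?_⟩
      · rw [Ideal.one_eq_top, top_sup_eq]
      · rw [Ideal.one_eq_top, top_sup_eq]
      · rw [hi0, pow_zero, one_mul]
    by_cases hc : i = 1 ∧ (b : 𝓞 k) ∉ p
    · refine ⟨1, p, SQD_full_one b, hp.squarefree, ?_, ?_, ?_⟩
      · rw [eq_top_iff]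
        by_contra hne
        have hle : p ≤ p ⊔ Ideal.span {(b : 𝓞 k)} := le_sup_left
        have h1 : p ⊔ Ideal.span {(b : 𝓞 k)} = p := by
          rcases hpM.out.le_iff.1 hle with h | h
          · exact absurd (le_of_eq h.symm) hne
          · exact h
        apply hc.2
        rw [← h1]
        exact (le_sup_right : Ideal.span {(b : 𝓞 k)} ≤ _)
          (Ideal.subset_span (Set.mem_singleton _))
      · rw [Ideal.one_eq_top, sup_top_eq]
      · rw [hc.1, pow_one, one_mul]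
    · refine ⟨p ^ i, 1, ?_, squarefree_one, ?_, ?_, mul_one _⟩
      · intro P hP hd
        have hPp : P = p := by
          rw [Ideal.dvd_iff_le] at hd
          have h1 : p ≤ P := hP.le_of_pow_le hd
          exact (hpM.eq_of_le hP.ne_top h1).symm
        rw [hPp]
        by_cases hi1 : i = 1
        · right
          by_contra hb
          exact hc ⟨hi1, hb⟩
        · left
          exact pow_dvd_pow p (by omega)
      · rw [Ideal.one_eq_top, top_sup_eq]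
      · rw [Ideal.one_eq_top, top_sup_eq]
  · intro x y hxy ihx ihy hne
    have hx : x ≠ ⊥ := fun h => hne (by rw [h, Ideal.bot_mul])
    have hy : y ≠ ⊥ := fun h => hne (by rw [h, Ideal.mul_bot])
    obtain ⟨B, I, h1, h2, h3, h4, h5⟩ := ihx hx
    obtain ⟨B', I', h1', h2', h3', h4', h5'⟩ := ihy hy
    have hco : x ⊔ y = ⊤ := SQD_relPrime hxy
    have hBx : B ∣ x := ⟨I, h5.symm⟩
    have hIx : I ∣ x := ⟨B, by rw [mul_comm]; exact h5.symm⟩
    have hBy : B' ∣ y := ⟨I', h5'.symm⟩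
    have hIy : I' ∣ y := ⟨B', by rw [mul_comm]; exact h5'.symm⟩
    refine ⟨B * B', I * I', SQD_full_mul h1 h1', ?_, SQD_cop_mul h3 h3', ?_, ?_⟩
    · rw [squarefree_mul_iff]
      refine ⟨?_, h2, h2'⟩
      intro z hz hz'
      exact hxy (hz.trans hIx) (hz'.trans hIy)
    · refine SQD_cop_mul ?_ ?_
      · rw [sup_comm]
        exact SQD_cop_mul (by rw [sup_comm]; exact h4)
          (by rw [sup_comm]; exact SQD_cop hco hIx hBy)
      · rw [sup_comm]
        exact SQD_cop_mul (SQD_cop hco hBx hIy) (by rw [sup_comm]; exact h4')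
    · rw [← h5, ← h5']
      ring

theorem SQD_aux {b : ℕ} {B I B' I' H : Ideal (𝓞 k)} (h : SQDdec b B I H)
    (h' : SQDdec b B' I' H) (hH : H ≠ ⊥) : I ∣ I' := by
  classical
  obtain ⟨_, h2, h3, h4, h5⟩ := h
  obtain ⟨h1', _, _, _, h5'⟩ := h'
  have hI : I ≠ 0 := h2.ne_zero
  have hI' : I' ≠ 0 := by
    rintro rfl
    exact hH (by rw [← h5', mul_zero]; rfl)
  rw [UniqueFactorizationMonoid.dvd_iff_normalizedFactors_le_normalizedFactors hI hI']
  rw [Multiset.le_iff_subset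
    ((UniqueFactorizationMonoid.squarefree_iff_nodup_normalizedFactors hI).1 h2)]
  intro p hp
  have hpp : Prime p := UniqueFactorizationMonoid.prime_of_normalized_factor p hp
  have hpI : p ∣ I := UniqueFactorizationMonoid.dvd_of_mem_normalizedFactors hp
  have hpP : p.IsPrime := Ideal.isPrime_of_prime hpp
  have hd : p ∣ I' := by
    have hd : p ∣ B' * I' := by
      rw [h5', ← h5]
      exact hpI.mul_left B
    rcases hpp.dvd_or_dvd hd with hd | hd
    · exfalso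
      rcases h1' p hpP hd with hd2 | hb
      · have hd3 : p ^ 2 ∣ B * I := by
          rw [h5, ← h5']
          exact hd2.mul_right I'
        have hcop : IsCoprime (p ^ 2) B := by
          refine IsCoprime.pow_left ?_
          rw [Ideal.isCoprime_iff_sup_eq]
          exact SQD_cop h4 hpI dvd_rfl
        have hd4 : p ^ 2 ∣ I := hcop.dvd_of_dvd_mul_left hd3
        rw [pow_two] at hd4
        exact hpp.not_unit (h2 p hd4)
      · apply hpP.ne_top
        rw [eq_top_iff, ← h3]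
        refine sup_le (Ideal.dvd_iff_le.1 hpI) ?_
        rw [Ideal.span_le, Set.singleton_subset_iff]
        exact hb
    · exact hd
  rw [UniqueFactorizationMonoid.mem_normalizedFactors_iff hI']
  exact ⟨hpp, hd⟩

theorem SQD_unique {b : ℕ} {B I B' I' H : Ideal (𝓞 k)} (h : SQDdec b B I H)
    (h' : SQDdec b B' I' H) (hH : H ≠ ⊥) : B = B' ∧ I = I' := by
  have h1 : I = I' := by
    refine le_antisymm ?_ ?_
    · exact Ideal.dvd_iff_le.1 (SQD_aux h' h hH)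
    · exact Ideal.dvd_iff_le.1 (SQD_aux h h' hH)
  subst h1
  refine ⟨?_, rfl⟩
  have h2 : B * I = B' * I := by rw [h.2.2.2.2, h'.2.2.2.2]
  exact mul_right_cancel₀ h.2.1.ne_zero h2

end

theorem pf_SQD (hJDM : T_JDM) : T_SQD := by
  classical
  intro k _ _ b a _ ha x
  obtain ⟨j1, j2, j3, j4, -⟩ := hJDM k
  have h1 : ∀ B ∈ (Jd k x).filter (Full b),
      (a B * ∑ I ∈ Sq b (x / nm B), if I ⊔ B = ⊤ then a I else 0) =
      ∑ I ∈ (Sq b (x / nm B)).filter (fun I => I ⊔ B = ⊤), a (B * I) := by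
    intro B hB
    rw [Finset.mem_filter, j1] at hB
    rw [← Finset.sum_filter, Finset.mul_sum]
    refine Finset.sum_congr rfl fun I hI => ?_
    rw [Finset.mem_filter, j2] at hI
    exact (ha B I hB.1.1 hI.1.1 (by rw [sup_comm]; exact hI.2)).symm
  rw [Finset.sum_congr rfl h1, Finset.sum_sigma']
  symm
  have hmem : ∀ B I : Ideal (𝓞 k), ((⟨B, I⟩ : (_ : Ideal (𝓞 k)) × Ideal (𝓞 k)) ∈
      ((Jd k x).filter (Full b)).sigma fun B => (Sq b (x / nm B)).filter fun I => I ⊔ B = ⊤) ↔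
      ((B ≠ ⊥ ∧ nm B ≤ x) ∧ Full b B) ∧
        (I ≠ ⊥ ∧ Squarefree I ∧ I ⊔ Ideal.span {(b : 𝓞 k)} = ⊤ ∧ nm I ≤ x / nm B) ∧ I ⊔ B = ⊤ := by
    intro B I
    rw [Finset.mem_sigma, Finset.mem_filter, Finset.mem_filter, j1, j2]
  have hpos : ∀ I : Ideal (𝓞 k), I ≠ ⊥ → 0 < nm I := fun I hI => zero_lt_one.trans_le (j3 I hI)
  have hmul0 : ∀ B I : Ideal (𝓞 k), B ≠ ⊥ → I ≠ ⊥ → B * I ≠ ⊥ := by
    intro B I hB hI h
    rcases Ideal.mul_eq_bot.1 h with h | h
    · exact hB h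
    · exact hI h
  refine Finset.sum_bij (fun y _ => y.1 * y.2) ?_ ?_ ?_ ?_
  · rintro ⟨B, I⟩ hx
    rw [hmem] at hx
    obtain ⟨⟨⟨hB1, hB2⟩, hB3⟩, ⟨hI1, hI2, hI3, hI4⟩, hI5⟩ := hx
    rw [j1]
    refine ⟨hmul0 _ _ hB1 hI1, ?_⟩
    rw [j4, mul_comm]
    exact (le_div_iff₀ (hpos B hB1)).1 hI4
  · rintro ⟨B, I⟩ hx ⟨B', I'⟩ hx' e
    rw [hmem] at hx hx'
    obtain ⟨⟨⟨hB1, hB2⟩, hB3⟩, ⟨hI1, hI2, hI3, hI4⟩, hI5⟩ := hx
    obtain ⟨⟨⟨hB1', hB2'⟩, hB3'⟩, ⟨hI1', hI2', hI3', hI4'⟩, hI5'⟩ := hx'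
    have e' : B * I = B' * I' := e
    obtain ⟨e1, e2⟩ := SQD_unique (b := b) (H := B * I) ⟨hB3, hI2, hI3, hI5, rfl⟩
      ⟨hB3', hI2', hI3', hI5', e'.symm⟩ (hmul0 _ _ hB1 hI1)
    rw [e1, e2]
  · intro H hH
    rw [j1] at hH
    obtain ⟨B, I, h1, h2, h3, h4, h5⟩ := SQD_exists b H hH.1
    have hB0 : B ≠ ⊥ := fun h => hH.1 (by rw [← h5, h, Ideal.bot_mul])
    have hI0 : I ≠ ⊥ := fun h => hH.1 (by rw [← h5, h, Ideal.mul_bot])
    have hn : nm B * nm I ≤ x := by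
      rw [← j4, h5]
      exact hH.2
    refine ⟨⟨B, I⟩, ?_, h5⟩
    rw [hmem]
    refine ⟨⟨⟨hB0, ?_⟩, h1⟩, ⟨hI0, h2, h3, ?_⟩, h4⟩
    · refine le_trans ?_ hn
      exact le_mul_of_one_le_right (hpos B hB0).le (j3 I hI0)
    · rw [le_div_iff₀ (hpos B hB0), mul_comm]
      exact hn
  · rintro ⟨B, I⟩ _
    rfl

end Pool.Agent.H66.CM4
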