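import Pool.Agent.H65.CM4.Targets1

/-!
# Row DVP of the board `cm4_modules`: divisibility on the lattice of a vector
-/

set_option autoImplicit false

open MeasureTheory Set Filter NumberField NumberField.InfinitePlace Pool.Agent.H65.CM4
open scoped Real

namespace Pool.Agent.H66.CM4

variable (k : Type) [Field k] [NumberField k] [IsTotallyReal k]

omit [NumberField k] [IsTotallyReal k] in
theorem DVP_mem_of_mul (P : Ideal (𝓞 k)) (hP : P.IsPrime) (x y : 𝓞 k) (hx : x ∉ P)
    (h : x ^ 2 * y ∈ P) : y ∈ P := by
  rcases hP.mem_or_mem h with h1 | h1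
  · exact absurd (hP.mem_of_pow_mem 2 h1) hx
  · exact h1

theorem pf_DVP : T_DVP k := by
  intro I P u Q _ hP hPI hcop
  have hle : I ≤ P := Ideal.dvd_iff_le.1 hPI
  constructor
  · intro h
    apply h
    change det u u ∈ I
    have h0 : det u u = 0 := by unfold det; ring
    rw [h0]
    exact I.zero_mem
  · intro h v hv
    have hdet : det u v ∈ P := hle hv
    by_cases h1 : u.1 ∈ P
    · have h2 : u.2 ∉ P := by
        intro h2
        apply hP.ne_top
        rw [eq_top_iff, ← hcop]
        refine sup_le (Ideal.span_le.2 ?_) hle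
        intro x hx
        rcases hx with hx | hx
        · rw [hx]; exact h1
        · rw [hx]; exact h2
      apply DVP_mem_of_mul k P hP u.2 _ h2
      have h3 : u.2 ^ 2 * val Q v = v.2 ^ 2 * val Q u +
          (-2 * Q.1 * u.1 * v.2 + Q.1 * det u v - Q.2.1 * u.2 * v.2) * det u v := by
        unfold val det
        ring
      rw [h3]
      exact P.add_mem (P.mul_mem_left _ h) (P.mul_mem_left _ hdet)
    · apply DVP_mem_of_mul k P hP u.1 _ h1
      have h3 : u.1 ^ 2 * val Q v = v.1 ^ 2 * val Q u +
          (Q.2.1 * u.1 * v.1 + 2 * Q.2.2 * u.2 * v.1 + Q.2.2 * det u v) * det u v := by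
        unfold val det
        ring
      rw [h3]
      exact P.add_mem (P.mul_mem_left _ h) (P.mul_mem_left _ hdet)

end Pool.Agent.H66.CM4
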